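import Pool.Agent.N661.BH.Stm3
import Pool.Agent.N814.BHASM

/-!
# Project FM: no loss of mass (FM4)
-/

set_option autoImplicit false
set_option maxHeartbeats 400000
open MeasureTheory Filter Topology Complex
open scoped ContDiff ENNReal

namespace Pool.Agent.N721.FMFM4

open Pool.Agent.W745.RW (TF)
open Pool.Agent.TH294.RS (TF.zero)
open Pool.Agent.N661.BR (MW)
open Pool.Agent.N661.BH
open Pool.Agent.N814.BHASM
open Pool.Agent.N814.BHM

noncomputable section

variable {Ω : Set ℂ} {lam : ℕ → ℝ} {u : ℕ → ℂ → ℝ}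

/-- the function cut off outside the upper half plane -/
def vv (u : ℕ → ℂ → ℝ) (n : ℕ) : ℂ → ℝ := HP.indicator (u n)

lemma HP_open : IsOpen HP := isOpen_lt continuous_const Complex.continuous_im

lemma vv_meas (H : Hyp Ω lam u) (n : ℕ) : Measurable (vv u n) := by
  classical
  have h1 : ContinuousOn (u n) HP := (H.sm n).continuousOn
  have h2 := h1.measurable_piecewise (g := fun _ => (0:ℝ)) continuousOn_const
    HP_open.measurableSet
  have h3 : HP.piecewise (u n) (fun _ => (0:ℝ)) = vv u n := Set.piecewise_eq_indicator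
  rwa [h3] at h2

lemma vv_eq (H : Hyp Ω lam u) (n : ℕ) {z : ℂ} (hz : z ∈ Ω) : vv u n z = u n z :=
  Set.indicator_of_mem (H.sub hz) _

lemma vv_bdd (H : Hyp Ω lam u) {φ : ℂ → ℝ} (hφ : Wt Ω φ) (n : ℕ) :
    ∃ C : ℝ, 0 ≤ C ∧ ∀ z ∈ tsupport φ, |vv u n z| ≤ C := by
  have h1 : ContinuousOn (u n) (tsupport φ) :=
    (H.sm n).continuousOn.mono (hφ.tf.2.2.trans H.sub)
  obtain ⟨C, hC⟩ := IsCompact.exists_bound_of_continuousOn (f := u n) hφ.tf.2.1 h1
  refine ⟨max C 0, le_max_right _ _, fun z hz => ?_⟩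
  rw [vv_eq H n (hφ.tf.2.2 hz)]
  exact (hC z hz).trans (le_max_left _ _)

lemma intP (H : Hyp Ω lam u) (g : ℂ → ℝ) :
    ∫ z, g z ∂(Pz Ω) = (mass Ω)⁻¹ * ∫ z in Ω, g z / z.im ^ 2 := by
  rw [int_Pz (mpos H), smul_eq_mul]
  congr 1
  congr 1
  funext z
  rw [smul_eq_mul]
  ring

/-- the one point law -/
lemma law (H : Hyp Ω lam u) {μ : Measure MW} (h : OneLaw Ω u μ) (g : ℝ → ℝ) (hg : Continuous g)
    (hb : ∃ C : ℝ, ∀ x, |g x| ≤ C) :
    Tendsto (fun n => ∫ z, g (vv u n z) ∂(Pz Ω)) atTop (𝓝 (∫ f : MW, g (f 0) ∂μ)) := by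
  refine (h g hg hb).congr fun n => ?_
  rw [intP H, div_eq_inv_mul]
  have e1 : ∫ z in Ω, 1 / z.im ^ 2 = mass Ω := rfl
  rw [e1]
  congr 1
  exact setIntegral_congr_fun H.op.measurableSet fun z hz => by
    show g (u n z) / z.im ^ 2 = g (vv u n z) / z.im ^ 2
    rw [vv_eq H n hz]

/-- the second moments -/
lemma second (H : Hyp Ω lam u) {φ : ℂ → ℝ} (hφ : Wt Ω φ) :
    Tendsto (fun n => ∫ z, φ z * vv u n z ^ 2 ∂(Pz Ω)) atTop (𝓝 (∫ z, φ z ∂(Pz Ω))) := by
  have h := H.qe φ hφ.tf 0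
  simp only [Function.iterate_zero, id_eq, if_true] at h
  have e : ∀ g : ℂ → ℝ, area Ω (fun z => ((g z : ℝ) : ℂ)) = ((∫ z in Ω, g z / z.im ^ 2 : ℝ) : ℂ) := by
    intro g
    unfold area
    have h1 : ((∫ z in Ω, g z / z.im ^ 2 : ℝ) : ℂ) = ∫ z in Ω, ((g z / z.im ^ 2 : ℝ) : ℂ) :=
      integral_ofReal.symm
    rw [h1]
    congr 1
    funext z
    push_cast
    ring
  have e1 : ∀ n, area Ω (fun z => (φ z : ℂ) * ((u n z : ℂ) * (u n z : ℂ))) =
      ((∫ z in Ω, (φ z * vv u n z ^ 2) / z.im ^ 2 : ℝ) : ℂ) := by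
    intro n
    rw [← e]
    unfold area
    refine setIntegral_congr_fun H.op.measurableSet fun z hz => ?_
    show _ * ((φ z : ℂ) * ((u n z : ℂ) * (u n z : ℂ))) = _ * ((φ z * vv u n z ^ 2 : ℝ) : ℂ)
    rw [vv_eq H n hz]
    push_cast
    ring
  rw [e φ] at h
  simp_rw [e1] at h
  have h2 : Tendsto (fun n => ∫ z in Ω, (φ z * vv u n z ^ 2) / z.im ^ 2) atTop
      (𝓝 (∫ z in Ω, φ z / z.im ^ 2)) := by
    have := (Complex.continuous_re.tendsto _).comp h
    simpa only [Function.comp_def, Complex.ofReal_re] using this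
  have h3 := h2.const_mul (mass Ω)⁻¹
  rw [intP H]
  refine h3.congr fun n => ?_
  rw [intP H]

lemma int_sq (H : Hyp Ω lam u) {φ : ℂ → ℝ} (hφ : Wt Ω φ) (n : ℕ) :
    Integrable (fun z => φ z * vv u n z ^ 2) (Pz Ω) := by
  obtain ⟨C, hC0, hC⟩ := vv_bdd H hφ n
  refine int_genz H hφ ((vv_meas H n).pow_const 2) (C := C ^ 2) (by positivity) fun z hz => ?_
  rw [abs_pow]
  exact pow_le_pow_left₀ (abs_nonneg _) (hC z hz) 2

lemma int_phi (H : Hyp Ω lam u) {φ : ℂ → ℝ} (hφ : Wt Ω φ) : Integrable φ (Pz Ω) := by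
  have := int_genz H hφ (G := fun _ => 1) measurable_const (C := 1) zero_le_one
    (fun z _ => by simp)
  simpa only [mul_one] using this

/-- the truncated square -/
def hM (M x : ℝ) : ℝ := min (x ^ 2) (M ^ 2)

lemma hM_cont (M : ℝ) : Continuous (hM M) := by
  unfold hM
  fun_prop

lemma hM_nonneg (M x : ℝ) : 0 ≤ hM M x := le_min (sq_nonneg _) (sq_nonneg _)

lemma hM_le (M x : ℝ) : hM M x ≤ M ^ 2 := min_le_right _ _

lemma hM_bdd (M : ℝ) : ∃ C : ℝ, ∀ x, |hM M x| ≤ C :=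
  ⟨M ^ 2, fun x => by rw [abs_of_nonneg (hM_nonneg M x)]; exact hM_le M x⟩

lemma int_hM (H : Hyp Ω lam u) (M : ℝ) (n : ℕ) :
    Integrable (fun z => hM M (vv u n z)) (Pz Ω) := by
  haveI := probz H
  refine Integrable.of_bound (((hM_cont M).measurable.comp (vv_meas H n)).aestronglyMeasurable)
    (M ^ 2) (Eventually.of_forall fun z => ?_)
  rw [Real.norm_eq_abs, abs_of_nonneg (hM_nonneg _ _)]
  exact hM_le _ _

/-- the limit of the truncated second moments -/
def aM (μ : Measure MW) (M : ℝ) : ℝ := ∫ f : MW, hM M (f 0) ∂μ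

lemma aM_le (H : Hyp Ω lam u) {μ : Measure MW} (h : OneLaw Ω u μ) (M : ℝ) : aM μ M ≤ 1 := by
  haveI := probz H
  obtain ⟨φ, hφ, hlim⟩ := exists_wt H
  have h1 : ∀ i, aM μ M ≤ ∫ z, φ i z ∂(Pz Ω) + M ^ 2 * (1 - ∫ z, φ i z ∂(Pz Ω)) := by
    intro i
    have t1 := law H h (hM M) (hM_cont M) (hM_bdd M)
    have t2 := (second H (hφ i)).add_const (M ^ 2 * (1 - ∫ z, φ i z ∂(Pz Ω)))
    refine le_of_tendsto_of_tendsto' t1 t2 fun n => ?_
    have i1 := int_sq H (hφ i) n
    have i2 : Integrable (fun z => M ^ 2 * (1 - φ i z)) (Pz Ω) :=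
      ((integrable_const (1:ℝ)).sub (int_phi H (hφ i))).const_mul _
    have e : ∫ z, φ i z * vv u n z ^ 2 ∂(Pz Ω) + M ^ 2 * (1 - ∫ z, φ i z ∂(Pz Ω)) =
        ∫ z, (φ i z * vv u n z ^ 2 + M ^ 2 * (1 - φ i z)) ∂(Pz Ω) := by
      rw [integral_add i1 i2, integral_const_mul,
        integral_sub (integrable_const (1:ℝ)) (int_phi H (hφ i))]
      simp
    rw [e]
    refine integral_mono (int_hM H M n) (i1.add i2) fun z => ?_
    show hM M (vv u n z) ≤ φ i z * vv u n z ^ 2 + M ^ 2 * (1 - φ i z)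
    have a1 := (hφ i).mem z
    have a2 : hM M (vv u n z) ≤ vv u n z ^ 2 := min_le_left _ _
    have a3 := hM_le M (vv u n z)
    have a4 := mul_le_mul_of_nonneg_left a2 a1.1
    have a5 := mul_le_mul_of_nonneg_left a3 (sub_nonneg.2 a1.2)
    nlinarith
  have h2 : Tendsto (fun i => ∫ z, φ i z ∂(Pz Ω) + M ^ 2 * (1 - ∫ z, φ i z ∂(Pz Ω))) atTop
      (𝓝 (1 + M ^ 2 * (1 - 1))) := hlim.add ((hlim.const_sub 1).const_mul _)
  rw [sub_self, mul_zero, add_zero] at h2
  exact ge_of_tendsto' h2 h1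

lemma le_aM (H : Hyp Ω lam u) {μ : Measure MW} (h : OneLaw Ω u μ) (hU : UnifInt4 Ω u)
    {φ : ℂ → ℝ} (hφ : Wt Ω φ) {ε : ℝ} (hε : 0 < ε) :
    ∃ M : ℝ, ∫ z, φ z ∂(Pz Ω) - ε ≤ aM μ M := by
  have hm := mpos H
  obtain ⟨M0, hM0⟩ := hU φ hφ.tf (fun z => (hφ.mem z).1) (mass Ω * ε) (by positivity)
  set M : ℝ := max M0 1 with hMdef
  refine ⟨M, ?_⟩
  have hM1 : 1 ≤ M := le_max_right _ _
  have t1 := law H h (hM M) (hM_cont M) (hM_bdd M)
  have t2 := (second H hφ).sub_const ε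
  refine le_of_tendsto_of_tendsto t2 t1 ?_
  filter_upwards [hM0] with n hn
  have i1 := int_sq H hφ n
  set T : ℂ → ℝ := fun z => φ z * (if M0 < |vv u n z| then vv u n z ^ 4 else 0) with hT
  have i2 : Integrable T (Pz Ω) := by
    obtain ⟨C, hC0, hC⟩ := vv_bdd H hφ n
    refine int_genz H hφ (G := fun z => if M0 < |vv u n z| then vv u n z ^ 4 else 0) ?_
      (C := C ^ 4) (by positivity) fun z hz => ?_
    · refine Measurable.ite (measurableSet_lt measurable_const ?_) ((vv_meas H n).pow_const 4)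
        measurable_const
      exact measurable_norm.comp (vv_meas H n)
    · show |if M0 < |vv u n z| then vv u n z ^ 4 else 0| ≤ C ^ 4
      split_ifs
      · rw [abs_pow]
        exact pow_le_pow_left₀ (abs_nonneg _) (hC z hz) 4
      · rw [abs_zero]
        positivity
  have hTle : ∫ z, T z ∂(Pz Ω) ≤ ε := by
    rw [intP H]
    have e1 : ∫ z in Ω, T z / z.im ^ 2 =
        ∫ z, φ z * (if M0 < |u n z| then u n z ^ 4 else 0) / z.im ^ 2 := by
      rw [← setIntegral_eq_integral_of_forall_compl_eq_zero (s := Ω)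
        (f := fun z => φ z * (if M0 < |u n z| then u n z ^ 4 else 0) / z.im ^ 2)]
      · refine setIntegral_congr_fun H.op.measurableSet fun z hz => ?_
        show T z / z.im ^ 2 = _
        simp only [hT]
        rw [vv_eq H n hz]
      · intro z hz
        show φ z * _ / z.im ^ 2 = 0
        rw [TF.zero hφ.tf hz, zero_mul, zero_div]
    rw [e1]
    calc (mass Ω)⁻¹ * _ ≤ (mass Ω)⁻¹ * (mass Ω * ε) :=
          mul_le_mul_of_nonneg_left hn (inv_nonneg.2 hm.le)
      _ = ε := by field_simp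
  have h3 : ∫ z, φ z * vv u n z ^ 2 ∂(Pz Ω) - ∫ z, T z ∂(Pz Ω) ≤
      ∫ z, hM M (vv u n z) ∂(Pz Ω) := by
    rw [← integral_sub i1 i2]
    refine integral_mono (i1.sub i2) (int_hM H M n) fun z => ?_
    show φ z * vv u n z ^ 2 - T z ≤ hM M (vv u n z)
    have a1 := hφ.mem z
    simp only [hT]
    rcases le_or_gt |vv u n z| M with hv | hv
    · have b1 : hM M (vv u n z) = vv u n z ^ 2 := by
        unfold hM
        apply min_eq_left
        rw [← sq_abs]
        exact pow_le_pow_left₀ (abs_nonneg _) hv 2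
      rw [b1]
      have b2 : φ z * vv u n z ^ 2 ≤ 1 * vv u n z ^ 2 :=
        mul_le_mul_of_nonneg_right a1.2 (sq_nonneg _)
      have b3 : 0 ≤ φ z * (if M0 < |vv u n z| then vv u n z ^ 4 else 0) := by
        apply mul_nonneg a1.1
        split_ifs
        · positivity
        · exact le_rfl
      linarith
    · have hM0v : M0 < |vv u n z| := (le_max_left _ _).trans_lt hv
      rw [if_pos hM0v]
      have b1 : 1 ≤ vv u n z ^ 2 := by
        rw [← sq_abs]
        exact one_le_pow₀ (hM1.trans hv.le)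
      have b2 : vv u n z ^ 2 ≤ vv u n z ^ 4 := by nlinarith
      have b3 := mul_le_mul_of_nonneg_left b2 a1.1
      have b4 := hM_nonneg M (vv u n z)
      linarith
  linarith

theorem FM4 : S_FM4 := by
  intro Ω lam u H μ hμ h hU
  have hmeas : Measurable fun f : MW => f 0 := (measurable_pi_apply (0:ℂ)).comp measurable_subtype_coe
  have hia : ∀ M, Integrable (fun f : MW => hM M (f 0)) μ := by
    intro M
    refine Integrable.of_bound ((hM_cont M).measurable.comp hmeas).aestronglyMeasurable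
      (M ^ 2) (Eventually.of_forall fun f => ?_)
    rw [Real.norm_eq_abs, abs_of_nonneg (hM_nonneg _ _)]
    exact hM_le _ _
  have hl : ∀ M, ∫⁻ f : MW, ENNReal.ofReal (hM M (f 0)) ∂μ = ENNReal.ofReal (aM μ M) := fun M =>
    (ofReal_integral_eq_lintegral_ofReal (hia M)
      (Eventually.of_forall fun f => hM_nonneg _ _)).symm
  apply le_antisymm
  · -- upper bound
    have hmono : Monotone fun (k : ℕ) (f : MW) => ENNReal.ofReal (hM (k : ℝ) (f 0)) := by
      intro k l hkl f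
      refine ENNReal.ofReal_le_ofReal ?_
      unfold hM
      refine min_le_min le_rfl ?_
      exact pow_le_pow_left₀ (Nat.cast_nonneg k) (by exact_mod_cast hkl) 2
    have ht : Tendsto (fun k : ℕ => ∫⁻ f : MW, ENNReal.ofReal (hM (k : ℝ) (f 0)) ∂μ) atTop
        (𝓝 (∫⁻ f : MW, ENNReal.ofReal (f 0 ^ 2) ∂μ)) := by
      refine lintegral_tendsto_of_tendsto_of_monotone (fun k => ?_)
        (Eventually.of_forall fun f => fun k l hkl => hmono hkl f)
        (Eventually.of_forall fun f => ?_)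
      · exact (((hM_cont _).measurable.comp hmeas).ennreal_ofReal).aemeasurable
      · refine tendsto_atTop_of_eventually_const (i₀ := ⌈|f 0|⌉₊) fun k hk => ?_
        congr 1
        unfold hM
        apply min_eq_left
        rw [← sq_abs]
        refine pow_le_pow_left₀ (abs_nonneg _) ?_ 2
        exact (Nat.le_ceil _).trans (by exact_mod_cast hk)
    refine le_of_tendsto' ht fun k => ?_
    rw [hl]
    exact ENNReal.ofReal_le_one.2 (aM_le H h _)
  · -- lower bound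
    obtain ⟨φ, hφ, hlim⟩ := exists_wt H
    have h1 : ∀ i, ENNReal.ofReal (∫ z, φ i z ∂(Pz Ω) - 1 / ((i : ℝ) + 1)) ≤
        ∫⁻ f : MW, ENNReal.ofReal (f 0 ^ 2) ∂μ := by
      intro i
      obtain ⟨M, hM'⟩ := le_aM H h hU (hφ i) (ε := 1 / ((i : ℝ) + 1)) (by positivity)
      calc ENNReal.ofReal (∫ z, φ i z ∂(Pz Ω) - 1 / ((i : ℝ) + 1)) ≤ ENNReal.ofReal (aM μ M) :=
            ENNReal.ofReal_le_ofReal hM'
        _ = ∫⁻ f : MW, ENNReal.ofReal (hM M (f 0)) ∂μ := (hl M).symm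
        _ ≤ _ := lintegral_mono fun f => ENNReal.ofReal_le_ofReal (min_le_left _ _)
    have h2 : Tendsto (fun i : ℕ => ENNReal.ofReal (∫ z, φ i z ∂(Pz Ω) - 1 / ((i : ℝ) + 1))) atTop
        (𝓝 (ENNReal.ofReal (1 - 0))) :=
      ENNReal.tendsto_ofReal (hlim.sub tendsto_one_div_add_atTop_nhds_zero_nat)
    rw [sub_zero, ENNReal.ofReal_one] at h2
    exact le_of_tendsto' h2 h1

end

end Pool.Agent.N721.FMFM4
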