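import Pool.Agent.N657.ZS.Stm
import Pool.Agent.TH964.CF.Basic

/-!
# ZS/ONE: the one-step bound for the string functional (for helper657)
-/

set_option linter.unusedSectionVars false

namespace Pool.Agent.N721.ZS_ONE

open MeasureTheory Filter Pool.Agent.TH964.CF Pool.Agent.N623.NA Pool.Agent.N657.ZS
open scoped Matrix.Norms.Frobenius Matrix Topology

section comb

variable {q : ℕ}

/-- The translation vector. -/
def te (τ : ℤ) : Fin 4 → ℤ := τ • ev ℤ 1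

theorem te0 (τ : ℤ) : te τ 0 = 0 := by simp [te, ev]
theorem te1 (τ : ℤ) : te τ 1 = τ := by simp [te, ev]
theorem te2 (τ : ℤ) : te τ 2 = 0 := by simp [te, ev]
theorem te3 (τ : ℤ) : te τ 3 = 0 := by simp [te, ev]

theorem ev_ne {i : Fin 4} (hi : i ≠ 1) : ev ℤ i 1 = 0 := by
  unfold ev
  rw [Pi.single_apply, if_neg (Ne.symm hi)]

/-- The two configurations agree up to a translation in the slice. -/
def Agr (τ : ℤ) (θ' θ : Lk ℤ → ZMod q) : Prop :=
  ∀ z i, z 1 = 0 → i ≠ 1 → θ' (z, i) = θ (z + te τ, i)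

theorem fl_tr {τ : ℤ} {θ' θ : Lk ℤ → ZMod q} (h : Agr τ θ' θ) {z : Fin 4 → ℤ} (hz : z 1 = 0)
    {i j : Fin 4} (hi : i ≠ 1) (hj : j ≠ 1) : fl θ' z i j = fl θ (z + te τ) i j := by
  unfold fl
  rw [h z i hz hi, h z j hz hj, h (z + ev ℤ i) j (by rw [Pi.add_apply, hz, ev_ne hi, add_zero]) hj,
    h (z + ev ℤ j) i (by rw [Pi.add_apply, hz, ev_ne hj, add_zero]) hi, add_right_comm z (ev ℤ i),
    add_right_comm z (ev ℤ j)]

theorem Om_tr (S τ : ℤ) (z : Fin 4 → ℤ) : Om S (z + te τ) ↔ Om S z := by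
  unfold Om
  rw [Pi.add_apply, Pi.add_apply, Pi.add_apply, te0, te2, te3, add_zero, add_zero, add_zero]

theorem Inn_tr (R S τ : ℤ) (z : Fin 4 → ℤ) : Inn R S (z + te τ) ↔ Inn R S z := by
  unfold Inn
  rw [Pi.add_apply, Pi.add_apply, Pi.add_apply, te0, te2, te3, add_zero, add_zero, add_zero]

theorem B3_tr {τ : ℤ} {θ' θ : Lk ℤ → ZMod q} (h : Agr τ θ' θ) (S : ℤ) (z : Fin 4 → ℤ) :
    z ∈ B3 S 0 θ' ↔ z + te τ ∈ B3 S τ θ := by
  change (Om S z ∧ z 1 = 0 ∧ ∃ i j : Fin 4, i < j ∧ i ≠ 1 ∧ j ≠ 1 ∧ fl θ' z i j ≠ 0) ↔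
    (Om S (z + te τ) ∧ (z + te τ) 1 = τ ∧
      ∃ i j : Fin 4, i < j ∧ i ≠ 1 ∧ j ≠ 1 ∧ fl θ (z + te τ) i j ≠ 0)
  rw [Om_tr]
  constructor
  · rintro ⟨h1, h2, i, j, h3, h4, h5, h6⟩
    refine ⟨h1, by rw [Pi.add_apply, h2, te1, zero_add], i, j, h3, h4, h5, ?_⟩
    rwa [← fl_tr h h2 h4 h5]
  · rintro ⟨h1, h2, i, j, h3, h4, h5, h6⟩
    have h7 : z 1 = 0 := by
      rw [Pi.add_apply, te1] at h2
      omega
    refine ⟨h1, h7, i, j, h3, h4, h5, ?_⟩
    rwa [fl_tr h h7 h4 h5]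

theorem adj_add {a b : Fin 4 → ℤ} (c : Fin 4 → ℤ) (h : adj a b) : adj (a + c) (b + c) := by
  intro i
  have h1 := h i
  rw [Pi.add_apply, Pi.add_apply, add_sub_add_right_eq_sub]
  exact h1

theorem Rch_tr {τ : ℤ} {θ' θ : Lk ℤ → ZMod q} (h : Agr τ θ' θ) (S : ℤ) {z w : Fin 4 → ℤ}
    (hr : Rch (B3 S 0 θ') z w) : Rch (B3 S τ θ) (z + te τ) (w + te τ) := by
  induction hr with
  | refl => exact Relation.ReflTransGen.refl
  | tail _ h2 ih => exact ih.tail ⟨(B3_tr h S _).1 h2.1, adj_add _ h2.2⟩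

theorem Rch_tr' {τ : ℤ} {θ' θ : Lk ℤ → ZMod q} (h : Agr τ θ' θ) (S : ℤ) {z w : Fin 4 → ℤ}
    (hr : Rch (B3 S τ θ) (z + te τ) w) : Rch (B3 S 0 θ') z (w + -te τ) := by
  induction hr with
  | refl =>
    rw [add_neg_cancel_right]
    exact Relation.ReflTransGen.refl
  | tail _ h2 ih =>
    refine ih.tail ⟨(B3_tr h S _).2 ?_, adj_add _ h2.2⟩
    rw [neg_add_cancel_right]
    exact h2.1

theorem good_tr {τ : ℤ} {θ' θ : Lk ℤ → ZMod q} (h : Agr τ θ' θ) (R S : ℤ) (z : Fin 4 → ℤ) :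
    good R S 0 θ' z ↔ good R S τ θ (z + te τ) := by
  unfold good
  rw [B3_tr h]
  refine and_congr Iff.rfl ⟨fun h1 w hw => ?_, fun h1 w hw => ?_⟩
  · have h2 := h1 _ (Rch_tr' h S hw)
    rw [← Inn_tr R S τ, neg_add_cancel_right] at h2
    exact h2
  · have h2 := h1 _ (Rch_tr h S hw)
    rwa [Inn_tr] at h2

theorem vec_tr (t s r τ : ℤ) : (![t, 0, s, r] : Fin 4 → ℤ) + te τ = ![t, τ, s, r] := by
  funext k
  fin_cases k
  · simp [te, ev]
  · simp [te, ev]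
  · simp [te, ev]
  · simp [te, ev]

theorem FF_tr {τ : ℤ} {θ' θ : Lk ℤ → ZMod q} (h : Agr τ θ' θ) (R S : ℤ) :
    FF R S 0 θ' = FF R S τ θ := by
  unfold FF
  refine congrArg₂ (· + ·) (Finset.sum_congr rfl fun t _ => ?_)
    (Finset.sum_congr rfl fun t _ => Finset.sum_congr rfl fun s _ => ?_)
  · rw [h _ _ rfl (by decide), vec_tr]
  · by_cases hg : good R S 0 θ' ![t, 0, s, 0]
    · have hg' := (good_tr h R S _).1 hg
      rw [vec_tr] at hg'
      rw [if_pos hg, if_pos hg', fl_tr h rfl (by decide) (by decide), vec_tr]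
    · have hg' : ¬ good R S τ θ ![t, τ, s, 0] := by
        intro h1
        apply hg
        rw [good_tr h, vec_tr]
        exact h1
      rw [if_neg hg, if_neg hg']

end comb

section main

variable {G : Type} [Group G] {q : ℕ}

theorem d_one {d : G → ZMod q} (hd : ∀ u v, d (u * v) = d u + d v) : d 1 = 0 := by
  have h := hd 1 1
  rw [mul_one] at h
  simpa using h

theorem agr_refl (d : G → ZMod q) (m : ℕ) (U : Lk ℤ → G) :
    Agr (m : ℤ) (pr d (refl 1 (shift (m • ev ℤ 1) U))) (pr d U) := by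
  intro z i hz hi
  unfold pr Pool.Agent.TH964.CF.refl shift
  rw [if_neg hi]
  have h1 : rs 1 z = z := by
    unfold rs
    rw [hz, neg_zero, ← hz, Function.update_eq_self]
  simp only [h1]
  congr 3

theorem ff_eq (d : G → ZMod q) [NeZero q] (ψ : AddChar (ZMod q) ℂ)
    (A : G →* Matrix.unitaryGroup (Fin 1) ℂ) (hA : ∀ u, mt A u = Matrix.of fun _ _ => ψ (d u))
    (R S : ℤ) (y : Fin 4 → ℤ) (m : ℕ) (U : Lk ℤ → G) :
    ff A A y m (PH d ψ R S) (PH d ψ R S) U =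
      ψ (FF R S m (pr d U) - FF R S 0 (pr d U) - d (seg U 0 1 m) + d (seg U y 1 m)) := by
  unfold ff PH
  rw [hA, hA, FF_tr (agr_refl d m U)]
  have h1 : ∀ a : ZMod q, star (ψ a) = ψ (-a) := fun a => (AddChar.map_neg_eq_conj ψ a).symm
  have h2 : Matrix.trace (((Matrix.of fun _ _ : Fin 1 => ψ (-FF R S m (pr d U)))ᴴ *
      (Matrix.of fun _ _ : Fin 1 => ψ (d (seg U 0 1 m)))ᴴ *
      (Matrix.of fun _ _ : Fin 1 => ψ (-FF R S 0 (pr d U))) *
      (Matrix.of fun _ _ : Fin 1 => ψ (d (seg U y 1 m))) : Matrix (Fin 1) (Fin 1) ℂ)) =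
      star (ψ (-FF R S m (pr d U))) * star (ψ (d (seg U 0 1 m))) * ψ (-FF R S 0 (pr d U)) *
        ψ (d (seg U y 1 m)) := by
    simp [Matrix.trace, Matrix.mul_apply, Matrix.conjTranspose_apply]
  rw [h2, h1, h1, neg_neg, ← AddChar.map_add_eq_mul, ← AddChar.map_add_eq_mul,
    ← AddChar.map_add_eq_mul]
  congr 1
  ring

end main

theorem main (hL : S_LOCD) (hD : S_DEP) (hH : S_HULL) (hT : S_TEL) (hp : S_PROB) : S_ONE := by
  intro G _ _ _ _ _ _ _ _ σ _ _ N π hπ β Λ hΛ q d hq hd hPei ψ A hA R hR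
  have hR' : (1 : ℤ) ≤ (R : ℤ) := by exact_mod_cast hR
  have : NeZero q := ⟨hq.ne'⟩
  obtain ⟨S, hRS, hLoc, hbd⟩ := hp G σ N π hπ β Λ hΛ q d hq hd hPei R hR'
  refine ⟨S, hRS, ?_⟩
  obtain ⟨hD1, hD2⟩ := hD q R S hq hR' hRS
  have hfin : (box (S + 1) ∩ hs 0 0 ∩ hs 1 0).Finite :=
    (BASIC.box_finite _).subset fun l hl => hl.1.1
  have hPH := hL G q d hq hd (Matrix (Fin 1) (Fin 1) ℂ)
    (fun θ => Matrix.of fun _ _ => ψ (-FF R S 0 θ)) (box (S + 1) ∩ hs 0 0 ∩ hs 1 0) hfin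
    (fun θ θ' h => by
      have h1 : FF R S 0 θ = FF R S 0 θ' := hD1 h
      simp only
      rw [h1])
  refine ⟨hPH.1, hPH.2, ?_, ?_⟩
  · have h1 : ff A A (-(R • ev ℤ 0)) 0 (PH d ψ R S) (PH d ψ R S) = fun _ => 1 := by
      funext U
      rw [ff_eq d ψ A hA]
      have h2 : ∀ y : Fin 4 → ℤ, seg U y 1 0 = 1 := fun _ => rfl
      rw [h2, h2]
      have h3 : FF R S ((0 : ℕ) : ℤ) (pr d U) - FF R S 0 (pr d U) - d 1 + d 1 = 0 := by
        rw [Nat.cast_zero]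
        ring
      rw [h3, AddChar.map_zero_eq_one]
    rw [h1, hΛ.one, Complex.one_re]
  · set F : (Lk ℤ → G) → ℂ := ff A A (-(R • ev ℤ 0)) 1 (PH d ψ R S) (PH d ψ R S) with hF
    let Ψ : (Lk ℤ → ZMod q) → ℂ := fun θ =>
      ψ (FF R S 1 θ - FF R S 0 θ - θ (0, 1) + θ (![-(R : ℤ), 0, 0, 0], 1))
    have hy : (-(R • ev ℤ 0) : Fin 4 → ℤ) = ![-(R : ℤ), 0, 0, 0] := by
      funext k
      fin_cases k
      · simp [ev]
      · simp [ev]
      · simp [ev]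
      · simp [ev]
    have hFΨ : F = fun U => Ψ (pr d U) := by
      funext U
      rw [hF, ff_eq d ψ A hA, hy]
      have h2 : ∀ y : Fin 4 → ℤ, seg U y 1 1 = U (y, 1) := fun y => by simp [seg]
      rw [h2, h2]
      simp only [Ψ, Nat.cast_one]
      rfl
    have hdep1 : DependsOn (fun θ : Lk ℤ → ZMod q => FF R S 1 θ)
        ((fun l : Lk ℤ => (l.1 + te 1, l.2)) '' (box (S + 1) ∩ hs 0 0 ∩ hs 1 0)) := by
      intro θ θ' h
      have e1 : ∀ θ : Lk ℤ → ZMod q, FF R S 0 (fun l => θ (l.1 + te 1, l.2)) = FF R S 1 θ :=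
        fun θ => FF_tr (fun z i _ _ => rfl) _ _
      change FF R S 1 θ = FF R S 1 θ'
      rw [← e1, ← e1]
      exact hD1 fun l hl => h _ ⟨l, hl, rfl⟩
    have hdep : DependsOn Ψ (((fun l : Lk ℤ => (l.1 + te 1, l.2)) ''
        (box (S + 1) ∩ hs 0 0 ∩ hs 1 0)) ∪ (box (S + 1) ∩ hs 0 0 ∩ hs 1 0) ∪
        {((0 : Fin 4 → ℤ), (1 : Fin 4)), (![-(R : ℤ), 0, 0, 0], 1)}) := by
      intro θ θ' h
      have e1 : FF R S 1 θ = FF R S 1 θ' := hdep1 fun l hl => h l (Or.inl (Or.inl hl))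
      have e2 : FF R S 0 θ = FF R S 0 θ' := hD1 fun l hl => h l (Or.inl (Or.inr hl))
      have e3 : θ (0, 1) = θ' (0, 1) := h _ (Or.inr (Or.inl rfl))
      have e4 : θ (![-(R : ℤ), 0, 0, 0], 1) = θ' (![-(R : ℤ), 0, 0, 0], 1) :=
        h _ (Or.inr (Or.inr rfl))
      simp only [Ψ]
      rw [e1, e2, e3, e4]
    have hfin2 := ((hfin.image (fun l : Lk ℤ => (l.1 + te 1, l.2))).union hfin).union
      (Set.toFinite {((0 : Fin 4 → ℤ), (1 : Fin 4)), (![-(R : ℤ), 0, 0, 0], 1)})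
    have hΨ := hL G q d hq hd ℂ Ψ _ hfin2 hdep
    have hFL : Loc F := by
      rw [hFΨ]
      exact ⟨hΨ.1, _, hfin2, hΨ.2⟩
    set E : (Lk ℤ → G) → ℂ := fun U => ((ind (EE R S (pr d U)) : ℝ) : ℂ) with hE
    have hone : Loc (fun _ : Lk ℤ → G => (1 : ℂ)) :=
      ⟨continuous_const, ∅, Set.finite_empty, fun _ _ _ => rfl⟩
    have h2E : Loc fun U => 2 * E U := BASIC.Loc.mulc hLoc 2
    have hsub : Loc fun U => F U - 1 := BASIC.Loc.comp1 hFL (f := fun z => z - 1) (by fun_prop)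
    have hsum : Loc fun U => (F U - 1) + 2 * E U :=
      BASIC.Loc.comp2 hsub h2E (f := fun p => p.1 + p.2) (by fun_prop)
    have hΛs : Λ (fun U => (F U - 1) + 2 * E U) = (Λ F - 1) + 2 * Λ E := by
      rw [hΛ.add _ _ hsub h2E, hΛ.smul 2 E hLoc, BASIC.st_sub hΛ hFL hone, hΛ.one]
    have hpos : 0 ≤ (Λ (fun U => (F U - 1) + 2 * E U)).re := by
      refine hΛ.pos _ hsum fun U => ?_
      simp only [hFΨ, hE]
      by_cases hEE : EE R S (pr d U)
      · have h1 : ind (EE R S (pr d U)) = 1 := by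
          unfold ind
          rw [if_pos hEE]
        have h2 : -1 ≤ (Ψ (pr d U)).re := by
          have h3 : ‖Ψ (pr d U)‖ = 1 := AddChar.norm_apply ψ _
          have h4 := Complex.abs_re_le_norm (Ψ (pr d U))
          rw [h3] at h4
          exact (abs_le.1 h4).1
        rw [h1]
        simp only [Complex.add_re, Complex.sub_re, Complex.one_re, Complex.ofReal_one, mul_one]
        norm_num
        linarith
      · have h1 : ind (EE R S (pr d U)) = 0 := by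
          unfold ind
          rw [if_neg hEE]
        have h2 : Ψ (pr d U) = 1 := by
          have h3 := hT q R S hR' hRS (pr d U) (hH q R S hR' hRS _ hEE)
          simp only [Ψ]
          rw [h3]
          have h4 : pr d U (0, 1) - pr d U (![-(R : ℤ), 0, 0, 0], 1) - pr d U (0, 1) +
            pr d U (![-(R : ℤ), 0, 0, 0], 1) = 0 := by ring
          rw [h4, AddChar.map_zero_eq_one]
        rw [h1, h2]
        simp
    rw [hΛs] at hpos
    have h9 : (2 * Λ E).re = 2 * (Λ E).re := by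
      simp [Complex.mul_re]
    rw [Complex.add_re, Complex.sub_re, Complex.one_re, h9] at hpos
    have h10 : (Λ E).re ≤ 1 / 8 := hbd
    linarith

end Pool.Agent.N721.ZS_ONE
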